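import Pool.Agent.H676.So.Stm

set_option autoImplicit false
set_option linter.unusedSectionVars false

/-! # The pseudo-density of a locally consistent system (proof of `S_DD`) -/

namespace Pool.Agent.H672.WS

open Finset Pool.Agent.W893.PR Pool.Agent.H676.GI Pool.Agent.H676.GI.Blk Pool.Agent.H676.So

variable {F : Type} [Fintype F] [DecidableEq F] {d : ℕ}

/-- the pairing -/
def pr (γ t : F → F2 d) : ZMod 2 := ∑ x, γ x ⬝ᵥ t x

/-- characters -/
noncomputable def ch (γ t : F → F2 d) : ℝ := sgn (pr γ t)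

theorem z2 (a : ZMod 2) : a = 0 ∨ a = 1 := by
  revert a
  decide

theorem sgn_add (a b : ZMod 2) : sgn (a + b) = sgn a * sgn b := by
  rcases z2 a with rfl | rfl <;> rcases z2 b with rfl | rfl
  · simp [sgn]
  · simp [sgn]
  · simp [sgn]
  · have h : (1 + 1 : ZMod 2) = 0 := by decide
    simp [sgn, h]

theorem sgn_sq (a : ZMod 2) : sgn a * sgn a = 1 := by
  unfold sgn
  split_ifs <;> norm_num

theorem sgn_ne (a b : ZMod 2) (h : a ≠ b) : sgn a = - sgn b := by
  rcases z2 a with rfl | rfl <;> rcases z2 b with rfl | rfl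
  · exact absurd rfl h
  · simp [sgn]
  · simp [sgn]
  · exact absurd rfl h

theorem pr_add (γ γ' t : F → F2 d) : pr (γ + γ') t = pr γ t + pr γ' t := by
  unfold pr
  rw [← Finset.sum_add_distrib]
  exact Finset.sum_congr rfl fun x _ => by rw [Pi.add_apply, add_dotProduct]

theorem pr_comm (γ t : F → F2 d) : pr γ t = pr t γ := by
  unfold pr
  exact Finset.sum_congr rfl fun x _ => dotProduct_comm _ _

theorem ch_add (γ γ' t : F → F2 d) : ch (γ + γ') t = ch γ t * ch γ' t := by
  unfold ch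
  rw [pr_add, sgn_add]

theorem ch_comm (γ t : F → F2 d) : ch γ t = ch t γ := by
  unfold ch
  rw [pr_comm]

theorem ch_add' (γ t t' : F → F2 d) : ch γ (t + t') = ch γ t * ch γ t' := by
  rw [ch_comm, ch_add, ch_comm t, ch_comm t']

theorem ch_zero (t : F → F2 d) : ch 0 t = 1 := by
  unfold ch pr
  simp [sgn]

theorem ch_sq (γ t : F → F2 d) : ch γ t * ch γ t = 1 := sgn_sq _

theorem add_self' (γ : F → F2 d) : γ + γ = 0 := by
  funext x j
  exact CharTwo.add_self_eq_zero _

theorem add_eq_zero' {γ γ' : F → F2 d} : γ + γ' = 0 ↔ γ = γ' := by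
  constructor
  · intro h
    have h1 : γ + (γ' + γ') = γ' := by rw [← add_assoc, h, zero_add]
    rwa [add_self', add_zero] at h1
  · rintro rfl
    exact add_self' γ

/-- a point supported at one place where the character is `-1` -/
theorem exists_neg {γ : F → F2 d} {x : F} (h : γ x ≠ 0) :
    ∃ t : F → F2 d, (∀ y, y ≠ x → t y = 0) ∧ ch γ t = -1 := by
  obtain ⟨j, hj⟩ := Function.ne_iff.1 h
  refine ⟨Pi.single x (Pi.single j 1), fun y hy => Pi.single_eq_of_ne hy _, ?_⟩
  have h1 : pr γ (Pi.single x (Pi.single j 1)) = γ x j := by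
    unfold pr
    rw [Finset.sum_eq_single x]
    · rw [Pi.single_eq_same, dotProduct_single, mul_one]
    · intro y _ hy
      rw [Pi.single_eq_of_ne hy, dotProduct_zero]
    · intro h'
      exact absurd (mem_univ x) h'
  unfold ch
  rw [h1]
  unfold sgn
  rw [if_neg]
  exact hj

/-- sum of a character -/
theorem sum_ch (γ : F → F2 d) :
    ∑ t, ch γ t = if γ = 0 then (Fintype.card (F → F2 d) : ℝ) else 0 := by
  split_ifs with h
  · rw [h, Finset.sum_congr rfl fun t _ => ch_zero t, Finset.sum_const, nsmul_eq_mul, mul_one,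
      Finset.card_univ]
  · obtain ⟨x, hx⟩ := Function.ne_iff.1 h
    obtain ⟨s, _, hs⟩ := exists_neg hx
    have h1 : ∑ t, ch γ (t + s) = ∑ t, ch γ t :=
      Fintype.sum_equiv (Equiv.addRight s) _ _ fun t => rfl
    have h2 : ∑ t, ch γ (t + s) = - ∑ t, ch γ t := by
      rw [← Finset.sum_neg_distrib]
      exact Finset.sum_congr rfl fun t _ => by rw [ch_add', hs]; ring
    linarith

/-- number of points -/
noncomputable def nn (F : Type) [Fintype F] [DecidableEq F] (d : ℕ) : ℝ :=
  Fintype.card (F → F2 d)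

theorem nn_pos : 0 < nn F d := by
  unfold nn
  exact_mod_cast Fintype.card_pos

/-- orthogonality -/
theorem orth (γ γ' : F → F2 d) :
    ∑ t, ch γ t * ch γ' t = if γ = γ' then nn F d else 0 := by
  rw [Finset.sum_congr rfl fun t _ => (ch_add γ γ' t).symm, sum_ch]
  by_cases h : γ = γ'
  · rw [if_pos (add_eq_zero'.2 h), if_pos h]
    rfl
  · rw [if_neg (fun h' => h (add_eq_zero'.1 h')), if_neg h]

/-- Fourier coefficient -/
noncomputable def gc (f : (F → F2 d) → ℝ) (γ : F → F2 d) : ℝ :=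
  (nn F d)⁻¹ * ∑ t, f t * ch γ t

/-- Fourier inversion -/
theorem inv (f : (F → F2 d) → ℝ) (t : F → F2 d) : f t = ∑ γ, gc f γ * ch γ t := by
  unfold gc
  have h1 : ∀ γ : F → F2 d, ((nn F d)⁻¹ * ∑ s, f s * ch γ s) * ch γ t =
      ∑ s, (nn F d)⁻¹ * f s * (ch s γ * ch t γ) := by
    intro γ
    rw [Finset.mul_sum, Finset.sum_mul]
    refine Finset.sum_congr rfl fun s _ => ?_
    rw [ch_comm s γ, ch_comm t γ]
    ring
  rw [Finset.sum_congr rfl fun γ _ => h1 γ, Finset.sum_comm]
  have h2 : ∀ s : F → F2 d, ∑ γ, (nn F d)⁻¹ * f s * (ch s γ * ch t γ) =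
      if s = t then f s else 0 := by
    intro s
    rw [← Finset.mul_sum, orth]
    split_ifs
    · have := (nn_pos (F := F) (d := d)).ne'
      field_simp
    · rw [mul_zero]
  rw [Finset.sum_congr rfl fun s _ => h2 s, Finset.sum_ite_eq' univ t f, if_pos (mem_univ t)]

/-- a junta has few coefficients -/
theorem gc_junta {A : Finset F} {f : (F → F2 d) → ℝ} (hf : Junta A f) {γ : F → F2 d}
    (h : gc f γ ≠ 0) : spp γ ⊆ A := by
  intro x hx
  by_contra hA
  apply h
  unfold spp at hx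
  rw [mem_filter] at hx
  obtain ⟨s, hs0, hs⟩ := exists_neg hx.2
  have h1 : ∑ t, f (t + s) * ch γ (t + s) = ∑ t, f t * ch γ t :=
    Fintype.sum_equiv (Equiv.addRight s) _ _ fun t => rfl
  have h2 : ∑ t, f (t + s) * ch γ (t + s) = - ∑ t, f t * ch γ t := by
    rw [← Finset.sum_neg_distrib]
    refine Finset.sum_congr rfl fun t _ => ?_
    rw [ch_add', hs, hf (t + s) t]
    · ring
    · intro y hy
      rw [Pi.add_apply, hs0 y, add_zero]
      rintro rfl
      exact hA hy
  unfold gc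
  rw [show ∑ t, f t * ch γ t = 0 by linarith, mul_zero]

theorem gc_sum {ι : Type} [Fintype ι] (f : ι → (F → F2 d) → ℝ) (γ : F → F2 d) :
    gc (fun t => ∑ i, f i t) γ = ∑ i, gc (f i) γ := by
  unfold gc
  rw [← Finset.mul_sum]
  congr 1
  rw [Finset.sum_comm]
  exact Finset.sum_congr rfl fun t _ => by rw [Finset.sum_mul]

/-- the pseudo-density -/
noncomputable def dn (e : (F → F2 d) → ℝ) (t : F → F2 d) : ℝ := (nn F d)⁻¹ * ∑ γ, e γ * ch γ t

theorem dn_ch (e : (F → F2 d) → ℝ) (γ : F → F2 d) : ∑ t, dn e t * ch γ t = e γ := by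
  unfold dn
  have h1 : ∀ t : F → F2 d, ((nn F d)⁻¹ * ∑ δ, e δ * ch δ t) * ch γ t =
      ∑ δ, (nn F d)⁻¹ * e δ * (ch δ t * ch γ t) := by
    intro t
    rw [Finset.mul_sum, Finset.sum_mul]
    exact Finset.sum_congr rfl fun s _ => by ring
  rw [Finset.sum_congr rfl fun t _ => h1 t, Finset.sum_comm]
  have h2 : ∀ δ : F → F2 d, ∑ t, (nn F d)⁻¹ * e δ * (ch δ t * ch γ t) =
      if δ = γ then e δ else 0 := by
    intro δ
    rw [← Finset.mul_sum, orth]
    split_ifs
    · have := (nn_pos (F := F) (d := d)).ne'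
      field_simp
    · rw [mul_zero]
  rw [Finset.sum_congr rfl fun s _ => h2 s, Finset.sum_ite_eq' univ γ e, if_pos (mem_univ γ)]

theorem dn_one (e : (F → F2 d) → ℝ) : ∑ t, dn e t = e 0 := by
  rw [← dn_ch e 0]
  exact Finset.sum_congr rfl fun t _ => by rw [ch_zero, mul_one]

/-- the functional in terms of coefficients, with a further character -/
theorem dn_mul (e : (F → F2 d) → ℝ) (f : (F → F2 d) → ℝ) (δ : F → F2 d) :
    ∑ t, dn e t * (f t * ch δ t) = ∑ γ, gc f γ * e (γ + δ) := by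
  have h1 : ∀ t, dn e t * (f t * ch δ t) = ∑ γ, gc f γ * (dn e t * ch (γ + δ) t) := by
    intro t
    conv_lhs => rw [inv f t, Finset.sum_mul, Finset.mul_sum]
    refine Finset.sum_congr rfl fun γ _ => ?_
    rw [ch_add]
    ring
  rw [Finset.sum_congr rfl fun t _ => h1 t, Finset.sum_comm]
  refine Finset.sum_congr rfl fun γ _ => ?_
  rw [← Finset.mul_sum, dn_ch]

theorem dn_fun (e : (F → F2 d) → ℝ) (f : (F → F2 d) → ℝ) :
    ∑ t, dn e t * f t = ∑ γ, gc f γ * e γ := by
  have h := dn_mul e f 0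
  rw [Finset.sum_congr rfl fun t _ => by rw [ch_zero, mul_one]] at h
  rw [h]
  exact Finset.sum_congr rfl fun γ _ => by rw [add_zero]

theorem dn_sq (e : (F → F2 d) → ℝ) (f : (F → F2 d) → ℝ) :
    ∑ t, dn e t * f t ^ 2 = ∑ γ, ∑ γ', gc f γ * gc f γ' * e (γ + γ') := by
  have h1 : ∀ t, dn e t * f t ^ 2 = ∑ δ, gc f δ * (dn e t * (f t * ch δ t)) := by
    intro t
    have h2 : dn e t * f t ^ 2 = dn e t * f t * ∑ δ, gc f δ * ch δ t := by
      rw [← inv f t]
      ring
    rw [h2, Finset.mul_sum]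
    exact Finset.sum_congr rfl fun δ _ => by ring
  rw [Finset.sum_congr rfl fun t _ => h1 t, Finset.sum_comm, Finset.sum_comm]
  rw [Finset.sum_comm]
  have h3 : ∀ δ, ∑ t, gc f δ * (dn e t * (f t * ch δ t)) =
      ∑ γ, gc f δ * (gc f γ * e (γ + δ)) := by
    intro δ
    rw [← Finset.mul_sum, dn_mul, Finset.mul_sum]
  rw [Finset.sum_congr rfl fun δ _ => h3 δ, Finset.sum_comm]
  exact Finset.sum_congr rfl fun γ _ => Finset.sum_congr rfl fun γ' _ => by ring

theorem spp_add (γ γ' : F → F2 d) : spp (γ + γ') ⊆ spp γ ∪ spp γ' := by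
  intro x hx
  unfold spp at hx ⊢
  rw [mem_union, mem_filter, mem_filter]
  rw [mem_filter] at hx
  by_contra h
  push Not at h
  apply hx.2
  rw [Pi.add_apply, h.1 (mem_univ x), h.2 (mem_univ x), add_zero]

theorem spp_zero : spp (0 : F → F2 d) = ∅ := by
  unfold spp
  rw [filter_eq_empty_iff]
  intro x _ h
  exact h rfl

section psd

variable {k : ℕ} {e : (F → F2 d) → ℝ} (h0 : e 0 = 1)
  (h1 : ∀ γ, e γ = 0 ∨ e γ = 1 ∨ e γ = -1)
  (h2 : ∀ γ γ', (spp γ).card ≤ 2 * k + 2 → (spp γ').card ≤ 2 * k + 2 →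
      (spp (γ + γ')).card ≤ 2 * k + 2 → e γ ≠ 0 → e (γ + γ') = e γ * e γ')

include h1 in
theorem e_sq {γ : F → F2 d} (h : e γ ≠ 0) : e γ * e γ = 1 := by
  rcases h1 γ with h' | h' | h'
  · exact absurd h' h
  · rw [h']; norm_num
  · rw [h']; norm_num

/-- small characters -/
def sml (F : Type) [Fintype F] [DecidableEq F] (d k : ℕ) : Finset (F → F2 d) :=
  univ.filter fun γ => (spp γ).card ≤ k

theorem card_two {γ γ' : F → F2 d} (h : γ ∈ sml F d k) (h' : γ' ∈ sml F d k) :
    (spp (γ + γ')).card ≤ 2 * k + 2 := by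
  unfold sml at h h'
  rw [mem_filter] at h h'
  have := (Finset.card_le_card (spp_add γ γ')).trans (Finset.card_union_le _ _)
  omega

include h2 in
theorem e_trans {γ δ γ' : F → F2 d} (hγ : γ ∈ sml F d k) (hδ : δ ∈ sml F d k)
    (hγ' : γ' ∈ sml F d k) (h : e (γ + δ) ≠ 0) : e (γ + γ') = e (γ + δ) * e (δ + γ') := by
  have h3 : γ + γ' = (γ + δ) + (δ + γ') := by
    rw [add_assoc, ← add_assoc δ δ, add_self', zero_add]
  rw [h3]
  exact h2 _ _ (card_two hγ hδ) (card_two hδ hγ') (by rw [← h3]; exact card_two hγ hγ') h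

/-- class size -/
noncomputable def ms (k : ℕ) (e : (F → F2 d) → ℝ) (γ : F → F2 d) : ℝ :=
  ∑ δ ∈ sml F d k, e (γ + δ) * e (γ + δ)

include h0 in
theorem ms_pos {γ : F → F2 d} (hγ : γ ∈ sml F d k) : 0 < ms k e γ := by
  unfold ms
  refine lt_of_lt_of_le ?_ (Finset.single_le_sum (fun δ _ => mul_self_nonneg (e (γ + δ))) hγ)
  rw [add_self', h0]
  norm_num

include h1 h2 in
theorem ms_eq {γ δ : F → F2 d} (hγ : γ ∈ sml F d k) (hδ : δ ∈ sml F d k) (h : e (γ + δ) ≠ 0) :
    ms k e γ = ms k e δ := by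
  unfold ms
  refine Finset.sum_congr rfl fun γ' hγ' => ?_
  rw [e_trans h2 hγ hδ hγ' h]
  have := e_sq h1 h
  calc _ = (e (γ + δ) * e (γ + δ)) * (e (δ + γ') * e (δ + γ')) := by ring
    _ = _ := by rw [this, one_mul]

include h0 h1 h2 in
theorem kern {γ γ' : F → F2 d} (hγ : γ ∈ sml F d k) (hγ' : γ' ∈ sml F d k) :
    e (γ + γ') = ∑ δ ∈ sml F d k, (ms k e δ)⁻¹ * (e (γ + δ) * e (γ' + δ)) := by
  have h3 : ∀ δ ∈ sml F d k, (ms k e δ)⁻¹ * (e (γ + δ) * e (γ' + δ)) =
      (ms k e γ)⁻¹ * e (γ + γ') * (e (γ + δ) * e (γ + δ)) := by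
    intro δ hδ
    by_cases h : e (γ + δ) = 0
    · rw [h]
      ring
    · rw [e_trans h2 hγ hδ hγ' h, ms_eq h1 h2 hγ hδ h, add_comm γ' δ]
      have := e_sq h1 h
      calc _ = (ms k e δ)⁻¹ * (e (γ + δ) * e (δ + γ')) * 1 := by ring
        _ = _ := by rw [← this]
  rw [Finset.sum_congr rfl h3, ← Finset.mul_sum]
  have h4 := (ms_pos h0 hγ).ne'
  change _ = (ms k e γ)⁻¹ * e (γ + γ') * ms k e γ
  field_simp

include h0 h1 h2 in
theorem psd (g : (F → F2 d) → ℝ) (hg : ∀ γ, g γ ≠ 0 → γ ∈ sml F d k) :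
    0 ≤ ∑ γ, ∑ γ', g γ * g γ' * e (γ + γ') := by
  have h3 : ∀ γ γ', g γ * g γ' * e (γ + γ') =
      ∑ δ ∈ sml F d k, (ms k e δ)⁻¹ * ((g γ * e (γ + δ)) * (g γ' * e (γ' + δ))) := by
    intro γ γ'
    by_cases hγ : g γ = 0
    · rw [hγ, zero_mul, zero_mul]
      refine (Finset.sum_eq_zero fun δ _ => ?_).symm
      ring
    by_cases hγ' : g γ' = 0
    · rw [hγ', mul_zero, zero_mul]
      refine (Finset.sum_eq_zero fun δ _ => ?_).symm
      ring
    rw [kern h0 h1 h2 (hg γ hγ) (hg γ' hγ'), Finset.mul_sum]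
    exact Finset.sum_congr rfl fun δ _ => by ring
  have h4 : ∑ γ, ∑ γ', g γ * g γ' * e (γ + γ') =
      ∑ δ ∈ sml F d k, (ms k e δ)⁻¹ * (∑ γ, g γ * e (γ + δ)) ^ 2 := by
    rw [Finset.sum_congr rfl fun γ _ => Finset.sum_congr rfl fun γ' _ => h3 γ γ']
    rw [Finset.sum_congr rfl fun γ _ => Finset.sum_comm, Finset.sum_comm]
    refine Finset.sum_congr rfl fun δ _ => ?_
    rw [sq, Finset.sum_mul_sum, Finset.mul_sum]
    refine Finset.sum_congr rfl fun γ _ => ?_
    rw [Finset.mul_sum]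
  rw [h4]
  refine Finset.sum_nonneg fun δ hδ => mul_nonneg (inv_nonneg.2 ?_) (sq_nonneg _)
  exact (ms_pos h0 hδ).le

end psd

theorem pr_single {M : ℕ} (Q : Sys F M d) (i : Fin M) (t : F → F2 d) :
    ch (Q.coef (Pi.single i 1)) t = sgn (Q.lhs t i) := by
  unfold ch pr
  rw [coef_val, Finset.sum_eq_single i]
  · rw [Pi.single_eq_same, one_mul]
  · intro j _ hj
    rw [Pi.single_eq_of_ne hj, zero_mul]
  · intro h
    exact absurd (mem_univ i) h

theorem spp_single {M : ℕ} (Q : Sys F M d) (i : Fin M) (A : Finset F)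
    (hA : ∀ l, Q.ends i l ∈ A) : spp (Q.coef (Pi.single i 1)) ⊆ A := by
  intro x hx
  by_contra h
  unfold spp at hx
  rw [mem_filter] at hx
  apply hx.2
  unfold Sys.coef
  refine Finset.sum_eq_zero fun p _ => ?_
  split_ifs with hp
  · have h1 : p.1 ≠ i := by
      intro h2
      apply h
      rw [← hp, h2]
      exact hA _
    rw [Pi.single_eq_of_ne h1, zero_smul]
  · rfl

theorem t_DD : S_DD := by
  intro F _ _ M d Q k b e hk h0 h1 h2 h3
  refine ⟨dn e, ?_, ?_, ?_⟩
  · rw [dn_one, h0]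
  · intro ι _ f hf
    rw [dn_sq e (fun t => ∑ i, f i t)]
    refine psd h0 h1 h2 _ ?_
    intro γ hγ
    rw [gc_sum] at hγ
    obtain ⟨i, _, hi⟩ := Finset.exists_ne_zero_of_sum_ne_zero hγ
    obtain ⟨A, hA, hJ⟩ := hf i
    unfold sml
    rw [mem_filter]
    exact ⟨mem_univ _, (Finset.card_le_card (gc_junta hJ hi)).trans hA⟩
  · intro A f hA hf hz
    have key : ∀ E : Finset (Fin M), (∀ i ∈ E, ∀ l, Q.ends i l ∈ A) →
        ∀ f : (F → F2 d) → ℝ, Junta A f → (∀ t, (∀ i ∈ E, Q.lhs t i = b i) → f t = 0) →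
          ∑ t, dn e t * f t = 0 := by
      intro E
      induction E using Finset.induction_on with
      | empty =>
        intro _ f _ hf
        refine Finset.sum_eq_zero fun t _ => ?_
        rw [hf t (fun i hi => absurd hi (Finset.notMem_empty i)), mul_zero]
      | insert i E _ ih =>
        intro hE f hJ hf
        have hi := hE i (Finset.mem_insert_self i E)
        obtain ⟨δ, hδ⟩ : ∃ δ, δ = Q.coef (Pi.single i 1) := ⟨_, rfl⟩
        have hch : ∀ t, ch δ t = sgn (Q.lhs t i) := fun t => by rw [hδ]; exact pr_single Q i t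
        have hsp : spp δ ⊆ A := by rw [hδ]; exact spp_single Q i A hi
        have hed : e δ = sgn (b i) := by rw [hδ]; exact h3 i
        have hedn : e δ ≠ 0 := by
          intro h
          have h4 := sgn_sq (b i)
          rw [← hed, h] at h4
          norm_num at h4
        have hz : ∑ t, dn e t * (f t * ch δ t) = sgn (b i) * ∑ t, dn e t * f t := by
          rw [dn_mul, dn_fun, Finset.mul_sum]
          refine Finset.sum_congr rfl fun γ _ => ?_
          by_cases hg : gc f γ = 0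
          · rw [hg]
            ring
          · have h5 := gc_junta hJ hg
            have h6 : spp (δ + γ) ⊆ A := (spp_add δ γ).trans (Finset.union_subset hsp h5)
            have c1 := Finset.card_le_card hsp
            have c2 := Finset.card_le_card h5
            have c3 := Finset.card_le_card h6
            rw [add_comm γ δ, h2 δ γ (by omega) (by omega) (by omega) hedn, hed]
            ring
        have h7 := ih (fun j hj => hE j (Finset.mem_insert_of_mem hj))
          (fun t => f t * ((1 + sgn (b i) * ch δ t) / 2)) ?_ ?_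
        · have h8 : ∑ t, dn e t * (f t * ((1 + sgn (b i) * ch δ t) / 2)) =
              (∑ t, dn e t * f t + sgn (b i) * ∑ t, dn e t * (f t * ch δ t)) / 2 := by
            rw [Finset.mul_sum, ← Finset.sum_add_distrib, Finset.sum_div]
            exact Finset.sum_congr rfl fun t _ => by ring
          rw [h8, hz, ← mul_assoc, sgn_sq, one_mul] at h7
          linarith
        · intro t t' htt
          have h9 : ch δ t = ch δ t' := by
            unfold ch
            congr 1
            unfold pr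
            refine Finset.sum_congr rfl fun x _ => ?_
            by_cases hx : δ x = 0
            · rw [hx, zero_dotProduct, zero_dotProduct]
            · rw [htt x (hsp (by unfold spp; rw [mem_filter]; exact ⟨mem_univ x, hx⟩))]
          change f t * ((1 + sgn (b i) * ch δ t) / 2) = f t' * ((1 + sgn (b i) * ch δ t') / 2)
          rw [hJ t t' htt, h9]
        · intro t ht
          by_cases hl : Q.lhs t i = b i
          · have h10 : f t = 0 := by
              refine hf t fun j hj => ?_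
              rcases Finset.mem_insert.1 hj with rfl | hj
              · exact hl
              · exact ht j hj
            rw [h10, zero_mul]
          · rw [hch, sgn_ne _ _ hl]
            have h11 := sgn_sq (b i)
            rw [show (1 + sgn (b i) * -sgn (b i)) = 0 by linarith]
            simp
    refine key (univ.filter fun i => ∀ l, Q.ends i l ∈ A) ?_ f hf ?_
    · intro i hi
      exact (mem_filter.1 hi).2
    · intro t ht
      exact hz t fun i hi => ht i (mem_filter.2 ⟨mem_univ i, hi⟩)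

end Pool.Agent.H672.WS
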